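import Mathlib
import Pool.Agent.Q85.HT.G

set_option autoImplicit false

open Complex Filter Topology ComplexConjugate

namespace Pool.Agent.Results.MP_301177_an.UniformAnalyticity

noncomputable section

/-! A function of the Hardy space `L²₊(𝕋)` is given by its sequence of Fourier coefficients
`û(0), û(1), …`. -/

/-- `h ∈ L²₊(𝕋)`: the Fourier coefficients are square-summable. -/
def InL2 (h : ℕ → ℂ) : Prop := Summable fun n => ‖h n‖ ^ 2

/-- `u ∈ H^{1/2}_+`: `∑ (1 + n) |û(n)|² < ∞`. -/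
def InHhalf (u : ℕ → ℂ) : Prop := Summable fun n : ℕ => (1 + (n : ℝ)) * ‖u n‖ ^ 2

/-- The antilinear Hankel operator `H_u(h) = Π(u h̄)`: the `n`-th Fourier coefficient of `Π(u h̄)`
is `∑_m û(n+m) conj(ĥ(m))`. -/
def hankel (u h : ℕ → ℂ) : ℕ → ℂ := fun n => ∑' m, u (n + m) * conj (h m)

/-- `S`, the multiplication by `e^{ix}`: the coefficients become `0, ĥ(0), ĥ(1), …`. -/
def shift (h : ℕ → ℂ) : ℕ → ℂ := fun n => if n = 0 then 0 else h (n - 1)

/-- `K_u = H_u S`. -/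
def shiftedHankel (u h : ℕ → ℂ) : ℕ → ℂ := hankel u (shift h)

/-- `h ∈ L²₊` solves `T² h = t h`. -/
def Eigen (T : (ℕ → ℂ) → ℕ → ℂ) (t : ℝ) (h : ℕ → ℂ) : Prop :=
  InL2 h ∧ ∀ n, T (T h) n = (t : ℂ) * h n

/-- The positive eigenvalues of `T²` on `L²₊` are exactly the numbers `(s_j)²`, and each of them
has a one-dimensional eigenspace. -/
def HasSingularValues (T : (ℕ → ℂ) → ℕ → ℂ) (s : ℕ → ℝ) : Prop :=
  (∀ j, ∃ e : ℕ → ℂ, e ≠ 0 ∧ ∀ h, Eigen T (s j ^ 2) h ↔ ∃ c : ℂ, ∀ n, h n = c * e n) ∧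
  ∀ (t : ℝ) (h : ℕ → ℂ), 0 < t → h ≠ 0 → Eigen T t h → ∃ j, t = s j ^ 2

/-- The torus `𝒯((s_r))`. The sequence is indexed from `0` here: `s r` is the number `s_{r+1}` of
the problem. So `ρ_j = s (2 (j-1))` and `σ_k = s (2 (k-1) + 1)` for `j, k ≥ 1`. -/
def InTorus (s : ℕ → ℝ) (u : ℕ → ℂ) : Prop :=
  InHhalf u ∧ HasSingularValues (hankel u) (fun j => s (2 * j)) ∧
    HasSingularValues (shiftedHankel u) (fun k => s (2 * k + 1))

/-- `u(z) = ∑ û(n) zⁿ` extends holomorphically to `|z| < R`, with `|u(z)| ≤ C` there. -/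
def ExtendsTo (u : ℕ → ℂ) (R C : ℝ) : Prop :=
  ∃ F : ℂ → ℂ, DifferentiableOn ℂ F (Metric.ball 0 R) ∧
    (∀ z ∈ Metric.ball (0 : ℂ) 1, HasSum (fun n => u n * z ^ n) (F z)) ∧
    ∀ z ∈ Metric.ball (0 : ℂ) R, ‖F z‖ ≤ C

/-! ### Passage to the Hilbert space `ℓ²` -/

open Pool.Agent.Q85.HT

theorem inL2_of_half {u : ℕ → ℂ} (hu : InHhalf u) : InL2 u := by
  refine Summable.of_nonneg_of_le (fun _ => by positivity) (fun n => ?_) hu
  have h1 : (0:ℝ) ≤ n := Nat.cast_nonneg n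
  nlinarith [sq_nonneg ‖u n‖]

theorem mem_of_inL2 {h : ℕ → ℂ} (hh : InL2 h) : Memℓp h 2 := by
  rw [memℓp_gen_iff (by norm_num)]
  unfold InL2 at hh
  simpa using hh

/-- the element of `ℓ²` -/
def mk (h : ℕ → ℂ) (hh : InL2 h) : G.Hardy := ⟨h, mem_of_inL2 hh⟩

theorem mk_apply (h : ℕ → ℂ) (hh : InL2 h) (n : ℕ) : mk h hh n = h n := rfl

theorem inL2_coe (h : G.Hardy) : InL2 (h : ℕ → ℂ) := G.summable_sq h

theorem shift_eq (h : G.Hardy) : (G.shift h : ℕ → ℂ) = shift h := by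
  ext n
  unfold shift
  cases n with
  | zero => rw [G.shift_zero, if_pos rfl]
  | succ n => rw [G.shift_succ, if_neg (by omega)]; rfl

theorem hankel_eq {u : ℕ → ℂ} (hu : InHhalf u) (h : G.Hardy) :
    (G.hankel (mk u (inL2_of_half hu)) h : ℕ → ℂ) = hankel u h := by
  ext n
  rw [G.hankel_apply (u := mk u (inL2_of_half hu)) hu]
  rfl

theorem shiftedHankel_eq {u : ℕ → ℂ} (hu : InHhalf u) (h : G.Hardy) :
    (G.shiftedHankel (mk u (inL2_of_half hu)) h : ℕ → ℂ) = shiftedHankel u h := by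
  unfold G.shiftedHankel shiftedHankel
  rw [hankel_eq hu, shift_eq]

theorem transfer {T : (ℕ → ℂ) → ℕ → ℂ} {T' : G.Hardy → G.Hardy} (hT : ∀ h, (T' h : ℕ → ℂ) = T h)
    {s : ℕ → ℝ} (h : HasSingularValues T s) : G.HasSingularValues T' s := by
  have key : ∀ (t : ℝ) (h : G.Hardy), T' (T' h) = (t : ℂ) • h ↔ Eigen T t h := by
    intro t h
    unfold Eigen
    rw [← hT, ← hT]
    constructor
    · intro h1
      refine ⟨inL2_coe h, fun n => ?_⟩
      rw [h1]; rfl
    · rintro ⟨-, h1⟩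
      ext n
      rw [h1]; rfl
  obtain ⟨h1, h2⟩ := h
  constructor
  · intro j
    obtain ⟨e, he0, he⟩ := h1 j
    have heL : InL2 e := ((he e).2 ⟨1, fun n => by simp⟩).1
    refine ⟨mk e heL, ?_, ?_⟩
    · intro h3
      apply he0
      ext n
      have : mk e heL n = (0 : G.Hardy) n := by rw [h3]
      exact this
    · intro h
      rw [key, he]
      constructor
      · rintro ⟨c, hc⟩
        refine ⟨c, ?_⟩
        ext n
        rw [hc]; rfl
      · rintro ⟨c, hc⟩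
        refine ⟨c, fun n => ?_⟩
        rw [hc]; rfl
  · intro t h ht h0 h3
    refine h2 t h ht ?_ ((key t h).1 h3)
    intro h4
    apply h0
    ext n
    rw [h4]; rfl

/-- **Q1 holds for every `δ ∈ (0,1)`**, with a radius which depends on `δ` only: there are
`ρ > 0` and `C₀` such that for every positive sequence with `s_{r+1} ≤ δ s_r` every element `u` of
the torus `𝒯((s_r))` extends holomorphically to `|z| < 1 + ρ`, with `|u(z)| ≤ C₀ s_1` there. -/
theorem result : ∀ δ : ℝ, 0 < δ → δ < 1 → ∃ ρ : ℝ, 0 < ρ ∧ ∃ C₀ : ℝ,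
    ∀ s : ℕ → ℝ, (∀ r, 0 < s r) → (∀ r, s (r + 1) ≤ δ * s r) →
    ∀ u : ℕ → ℂ, InTorus s u → ExtendsTo u (1 + ρ) (C₀ * s 0) := by
  intro δ hδ0 hδ1
  obtain ⟨q, hq0, hq1, hq⟩ := G.coeff_bound hδ0 hδ1
  set r : ℝ := max (q ^ 2) (1/2) with hr
  have hr1 : r < 1 := max_lt (by nlinarith) (by norm_num)
  have hr0 : 1/2 ≤ r := le_max_right _ _
  have hrpos : 0 < r := by linarith
  refine ⟨(1 / r - 1) / 2, ?_, 1 / (1 - (1 + r) / 2), ?_⟩
  · have : 1 < 1 / r := by rw [lt_div_iff₀ hrpos]; linarith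
    linarith
  intro s hs hsr u hu
  obtain ⟨huH, hu1, hu2⟩ := hu
  have hcoef : ∀ n, ‖u n‖ ≤ s 0 * r ^ n := by
    intro n
    refine (hq s hs hsr (mk u (inL2_of_half huH)) ⟨huH, transfer (hankel_eq huH) hu1,
      transfer (shiftedHankel_eq huH) hu2⟩ n).trans ?_
    apply mul_le_mul_of_nonneg_left _ (hs 0).le
    exact pow_le_pow_left₀ (by positivity) (le_max_left _ _) n
  have hrad : (1 + (1 / r - 1) / 2) * r = (1 + r) / 2 := by field_simp; ring
  have hterm : ∀ n, ∀ z ∈ Metric.ball (0 : ℂ) (1 + (1 / r - 1) / 2),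
      ‖u n * z ^ n‖ ≤ s 0 * ((1 + r) / 2) ^ n := by
    intro n z hz
    rw [mem_ball_zero_iff] at hz
    rw [norm_mul, norm_pow]
    calc ‖u n‖ * ‖z‖ ^ n ≤ (s 0 * r ^ n) * (1 + (1 / r - 1) / 2) ^ n := by
          apply mul_le_mul (hcoef n) (pow_le_pow_left₀ (norm_nonneg _) hz.le n) (by positivity)
            (mul_nonneg (hs 0).le (by positivity))
      _ = s 0 * ((1 + (1 / r - 1) / 2) * r) ^ n := by rw [mul_pow]; ring
      _ = _ := by rw [hrad]
  have hgeo : Summable fun n => s 0 * ((1 + r) / 2) ^ n :=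
    (summable_geometric_of_lt_one (by positivity) (by linarith)).mul_left _
  refine ⟨fun z => ∑' n, u n * z ^ n, ?_, ?_, ?_⟩
  · apply differentiableOn_tsum_of_summable_norm hgeo
    · intro n
      exact Differentiable.differentiableOn (by fun_prop)
    · exact Metric.isOpen_ball
    · exact hterm
  · intro z hz
    have hz' : z ∈ Metric.ball (0 : ℂ) (1 + (1 / r - 1) / 2) := by
      apply Metric.ball_subset_ball _ hz
      have : 1 < 1 / r := by rw [lt_div_iff₀ hrpos]; linarith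
      linarith
    exact (Summable.of_norm_bounded hgeo (fun n => hterm n z hz')).hasSum
  · intro z hz
    refine (tsum_of_norm_bounded (hgeo.hasSum) (fun n => hterm n z hz)).trans (le_of_eq ?_)
    rw [tsum_mul_left, tsum_geometric_of_lt_one (by positivity) (by linarith), one_div, mul_comm]

end

end Pool.Agent.Results.MP_301177_an.UniformAnalyticity
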